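import Mathlib
import Pool.Agent.K4H38.FP.Fin
import Pool.Agent.H350R3.NB.Collide
import Pool.Agent.TH176.FB.J7

/-!
Collision of `n ^ n` points on a grid.
-/

set_option autoImplicit false
set_option linter.unusedSectionVars false

namespace K4H77CW

open MvPolynomial H350MG Module K4H38FP
open Pool.Agent.H932R5 (EmptyAt Z Td Vd deh deh_X deh_X0 deh_mem deh_inj deh_surj mem_hI_iff mem_pt_pow_iff
  mem_mspan mem_Z hI)

section point

variable {E : ℕ}

/-- the ideals of a point of projective space -/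
lemma pointIdeal_eq (P : Fin (E + 1) → ℂ) :
    pointIdeal (Fin.cons 1 P : Fin (E + 1 + 1) → ℂ) = hI P := by
  apply le_antisymm
  · intro F hF
    rw [mem_pointIdeal_iff_lineRes] at hF
    have h : (Ideal.Quotient.mkₐ ℂ (hI P)) =
        ((Ideal.Quotient.mkₐ ℂ (hI P)).comp
          (Polynomial.aeval (X 0 : MvPolynomial (Fin (E + 1 + 1)) ℂ))).comp
            (lineRes (Fin.cons 1 P : Fin (E + 1 + 1) → ℂ)) := by
      refine MvPolynomial.algHom_ext fun i => ?_
      rw [AlgHom.comp_apply, AlgHom.comp_apply]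
      have h1 : lineRes (Fin.cons 1 P : Fin (E + 1 + 1) → ℂ) (X i) =
          Polynomial.C ((Fin.cons 1 P : Fin (E + 1 + 1) → ℂ) i) * Polynomial.X := by
        simp [lineRes]
      rw [h1, map_mul, Polynomial.aeval_C, Polynomial.aeval_X]
      refine Fin.cases ?_ (fun j => ?_) i
      · rw [Fin.cons_zero, map_one, one_mul]
      · rw [Fin.cons_succ]
        show Ideal.Quotient.mk _ _ = Ideal.Quotient.mk _ _
        rw [Ideal.Quotient.eq]
        exact Ideal.subset_span ⟨j, rfl⟩
    have h2 := AlgHom.congr_fun h F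
    rw [AlgHom.comp_apply, hF, map_zero] at h2
    exact Ideal.Quotient.eq_zero_iff_mem.1 h2
  · unfold hI
    rw [Ideal.span_le]
    rintro _ ⟨j, rfl⟩
    intro t
    simp
    ring

lemma cons_ne (P : Fin (E + 1) → ℂ) : (Fin.cons 1 P : Fin (E + 1 + 1) → ℂ) ≠ 0 := by
  intro h
  have h1 := congrFun h 0
  rw [Fin.cons_zero] at h1
  exact one_ne_zero h1

lemma D_iff (P : Fin (E + 1) → ℂ) {d : ℕ} (m : ℕ) {F : MvPolynomial (Fin (E + 1 + 1)) ℂ}
    (hF : F ∈ Rj ℂ (Fin (E + 1 + 1)) d) :
    (D (Fin.cons 1 P : Fin (E + 1 + 1) → ℂ) ^ (d + 1 - m)) F = 0 ↔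
      deh ℂ E F ∈ Pool.Agent.H932R5.pt P ^ m := by
  have hF' : F.IsHomogeneous d := (mem_homogeneousSubmodule d F).1 hF
  rw [← mem_hI_iff hF', ← pointIdeal_eq]
  by_cases hm : m ≤ d + 1
  · exact (mem_pow_iff (cons_ne P) hm hF).symm
  · have h1 : d + 1 - m = 0 := by omega
    rw [h1, pow_zero]
    constructor
    · intro h
      have : F = 0 := h
      rw [this]
      exact Ideal.zero_mem _
    · intro h
      exact eq_zero_of_mem_pow (by omega : d < m) h hF

end point

/-- the generic dimension is zero iff the system is empty for some points of the affine space -/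
theorem hv_eq_zero_iff {E N : ℕ} (w : Fin N → ℕ) (d : ℕ) :
    hv ℂ (Fin (E + 1 + 1)) d ((Finset.univ : Finset (Fin N)).val.map w) = 0 ↔
      ∃ P : Fin N → Fin (E + 1) → ℂ, EmptyAt w P d := by
  classical
  constructor
  · intro h
    obtain ⟨Φ, hΦ0, hΦ⟩ := gen_fin (n := E + 1) w d
    have hprod : Φ * ∏ i : Fin N, X (i, (0 : Fin (E + 1 + 1))) ≠ 0 :=
      mul_ne_zero hΦ0 (Finset.prod_ne_zero_iff.2 fun i _ => X_ne_zero _)
    obtain ⟨v, hv⟩ : ∃ v : Fin N × Fin (E + 1 + 1) → ℂ,
        eval v (Φ * ∏ i : Fin N, X (i, (0 : Fin (E + 1 + 1)))) ≠ 0 := by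
      by_contra hcon
      push Not at hcon
      exact hprod (MvPolynomial.funext fun θ => by rw [hcon θ, map_zero])
    rw [map_mul] at hv
    have hv1 := left_ne_zero_of_mul hv
    have hv2 := right_ne_zero_of_mul hv
    rw [map_prod, Finset.prod_ne_zero_iff] at hv2
    have hv0 : ∀ i, v (i, 0) ≠ 0 := by
      intro i
      have := hv2 i (Finset.mem_univ i)
      rwa [eval_X] at this
    have hfin := hΦ v hv1
    rw [h, Submodule.finrank_eq_zero] at hfin
    refine ⟨fun i j => v (i, j.succ) / v (i, 0), fun f hf hfd => ?_⟩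
    obtain ⟨F, hF, rfl⟩ := deh_surj (mem_mspan.2 hfd)
    have hFR : F ∈ Rj ℂ (Fin (E + 1 + 1)) d := (mem_homogeneousSubmodule d F).2 hF
    rw [mem_Z] at hf
    have hmem : F ∈ KS d ((Finset.univ : Finset (Fin N)).val.map
        fun i => ((fun j : Fin (E + 1 + 1) => v (i, j)), w i)) := by
      rw [mem_KS]
      refine ⟨hFR, fun c hc => ?_⟩
      obtain ⟨i, _, rfl⟩ := Multiset.mem_map.1 hc
      have h1 : (fun j : Fin (E + 1 + 1) => v (i, j)) =
          v (i, 0) • (Fin.cons 1 (fun j => v (i, j.succ) / v (i, 0)) : Fin (E + 1 + 1) → ℂ) := by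
        funext j
        refine Fin.cases ?_ (fun j => ?_) j
        · rw [Pi.smul_apply, Fin.cons_zero, smul_eq_mul, mul_one]
        · rw [Pi.smul_apply, Fin.cons_succ, smul_eq_mul, mul_div_cancel₀ _ (hv0 i)]
      show (D (fun j : Fin (E + 1 + 1) => v (i, j)) ^ (d + 1 - w i)) F = 0
      rw [h1, Dpow_smul, (D_iff _ (w i) hFR).2 (hf i), smul_zero]
    rw [hfin, Submodule.mem_bot] at hmem
    rw [hmem, map_zero]
  · rintro ⟨P, hP⟩
    have h1 : hv ℂ (Fin (E + 1 + 1)) d ((Finset.univ : Finset (Fin N)).val.map w) ≤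
        finrank ℂ (KS d ((Finset.univ : Finset (Fin N)).val.map
          fun i => ((Fin.cons 1 (P i) : Fin (E + 1 + 1) → ℂ), w i))) := by
      refine hv_le _ ?_
      rw [Multiset.map_map]
      rfl
    have h2 : KS d ((Finset.univ : Finset (Fin N)).val.map
          fun i => ((Fin.cons 1 (P i) : Fin (E + 1 + 1) → ℂ), w i)) = ⊥ := by
      rw [eq_bot_iff]
      intro F hF
      rw [mem_KS] at hF
      rw [Submodule.mem_bot]
      have hF' : F.IsHomogeneous d := (mem_homogeneousSubmodule d F).1 hF.1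
      refine deh_inj hF' (hP _ ?_ (mem_mspan.1 (deh_mem hF')))
      rw [mem_Z]
      intro i
      have h3 := hF.2 ((Fin.cons 1 (P i) : Fin (E + 1 + 1) → ℂ), w i)
        (Multiset.mem_map.2 ⟨i, Finset.mem_univ_val i, rfl⟩)
      exact (D_iff (P i) (w i) hF.1).1 h3
    rw [h2, finrank_bot] at h1
    omega

lemma univ_map_get (l : List ℕ) : (Finset.univ : Finset (Fin l.length)).val.map l.get = (l : Multiset ℕ) := by
  rw [Fin.univ_val_map, List.ofFn_get]

/-- a polynomial of small degree in a large power of the ideal of a point vanishes -/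
lemma eq_zero_of_pt {E m : ℕ} {f : MvPolynomial (Fin (E + 1)) ℂ}
    (h : f ∈ Pool.Agent.H932R5.pt (fun _ => (0 : ℂ)) ^ m)
    (hd : ∀ α, coeff α f ≠ 0 → Finsupp.degree α < m) : f = 0 := by
  have h0 : Pool.Agent.H932R5.shift (fun _ : Fin (E + 1) => (0 : ℂ)) f = f := by
    have : Pool.Agent.H932R5.shift (fun _ : Fin (E + 1) => (0 : ℂ)) = AlgHom.id ℂ _ := by
      refine MvPolynomial.algHom_ext fun i => ?_
      rw [Pool.Agent.H932R5.shift_X]
      simp
    rw [this]
    rfl
  rw [mem_pt_pow_iff, h0] at h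
  ext α
  rw [coeff_zero]
  by_contra hα
  exact hα (h α (hd α hα))

/-- `(E + 1) ^ (E + 1)` points of multiplicity at least `k + 1` are as good as one point of
multiplicity `(E + 1) (k - 1) + 1` (even `(E + 1) (k + 1)`) -/
theorem collideC {E d k : ℕ} (c s : Multiset ℕ) (hc : c.card = (E + 1) ^ (E + 1))
    (hck : ∀ m ∈ c, k + 1 ≤ m)
    (h : hv ℂ (Fin (E + 1 + 1)) d (((E + 1) * (k - 1) + 1) ::ₘ s) = 0) :
    hv ℂ (Fin (E + 1 + 1)) d (c + s) = 0 := by
  classical
  obtain ⟨lc, rfl⟩ := Quot.exists_rep c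
  obtain ⟨ls, rfl⟩ := Quot.exists_rep s
  change hv ℂ (Fin (E + 1 + 1)) d ((lc : Multiset ℕ) + (ls : Multiset ℕ)) = 0
  change hv ℂ (Fin (E + 1 + 1)) d (((E + 1) * (k - 1) + 1) ::ₘ (ls : Multiset ℕ)) = 0 at h
  change ∀ m ∈ (lc : Multiset ℕ), k + 1 ≤ m at hck
  change (lc : Multiset ℕ).card = (E + 1) ^ (E + 1) at hc
  rw [Multiset.coe_card] at hc
  rw [Multiset.cons_coe, ← univ_map_get, hv_eq_zero_iff] at h
  obtain ⟨Q, hQ⟩ := h
  rw [Multiset.coe_add, ← univ_map_get, hv_eq_zero_iff]
  obtain ⟨ZZ, hZc, hZ⟩ := Pool.Agent.TH176.FB.exists_vanish (K := ℂ) (E + 1) (E + 1) (by omega)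
  have hcard : Fintype.card {z // z ∈ ZZ} = Fintype.card (Fin lc.length) := by
    rw [Fintype.card_coe, Fintype.card_fin, hZc, hc]
  let e : Fin lc.length ≃ {z // z ∈ ZZ} := (Fintype.equivOfCardEq hcard).symm
  let R : Fin (lc ++ ls).length → Fin (E + 1) → ℂ := fun i =>
    if hi : i.1 < lc.length then (e ⟨i.1, hi⟩).1 else fun _ => 0
  let g : Fin (lc ++ ls).length → Fin (((E + 1) * (k - 1) + 1) :: ls).length := fun i =>
    ⟨if i.1 < lc.length then 0 else i.1 - lc.length + 1, by
      have h1 : i.1 < lc.length + ls.length := lt_of_lt_of_eq i.2 List.length_append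
      have h2 : (((E + 1) * (k - 1) + 1) :: ls).length = ls.length + 1 := List.length_cons
      rw [h2]
      split_ifs <;> omega⟩
  refine Pool.Agent.H350R3.NB.exists_collide (g := g) (R := R) hQ fun j f hf hfd => ?_
  rcases j with ⟨j, hj⟩
  rcases j with _ | j
  · -- the grid
    have hA : (((E + 1) * (k - 1) + 1) :: ls).get ⟨0, hj⟩ = (E + 1) * (k - 1) + 1 := rfl
    rw [hA] at hfd
    refine hZ k ((E + 1) * (k - 1)) ?_ f ?_ ?_
    · have : k - 1 < k + 1 := by omega
      exact Nat.mul_lt_mul_of_pos_left this (by omega)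
    · refine Finset.sup_le fun α hα => ?_
      have h1 := hfd α (mem_support_iff.1 hα)
      have h2 : (α.sum fun _ e => e) = Finsupp.degree α := rfl
      rw [h2]
      omega
    · intro p hp α hα
      set i0 := e.symm ⟨p, hp⟩ with hi0
      have hlt : i0.1 < (lc ++ ls).length := by
        rw [List.length_append]
        exact Nat.lt_add_right _ i0.2
      have h1 := hf ⟨i0.1, hlt⟩ (by
        apply Fin.ext
        show (if i0.1 < lc.length then 0 else _) = 0
        rw [if_pos i0.2])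
      have h2 : R ⟨i0.1, hlt⟩ = p := by
        show (if hi : i0.1 < lc.length then (e ⟨i0.1, hi⟩).1 else fun _ => 0) = p
        rw [dif_pos i0.2]
        have : e ⟨i0.1, i0.2⟩ = ⟨p, hp⟩ := by
          show e i0 = _
          rw [hi0, Equiv.apply_symm_apply]
        rw [this]
      have h3 : k + 1 ≤ (lc ++ ls).get ⟨i0.1, hlt⟩ := by
        have h4 : (lc ++ ls).get ⟨i0.1, hlt⟩ = lc.get i0 := by
          rw [List.get_eq_getElem, List.getElem_append_left i0.2]
          rfl
        rw [h4]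
        exact hck _ (Multiset.mem_coe.2 (List.get_mem _ _))
      rw [h2] at h1
      rw [mem_pt_pow_iff] at h1
      exact h1 α (by omega)
  · have hj' : j < ls.length := by
      rw [List.length_cons] at hj
      omega
    have hA : (((E + 1) * (k - 1) + 1) :: ls).get ⟨j + 1, hj⟩ = ls[j] := rfl
    rw [hA] at hfd
    have hlt : lc.length + j < (lc ++ ls).length := by
      rw [List.length_append]
      omega
    have h1 := hf ⟨lc.length + j, hlt⟩ (by
      apply Fin.ext
      show (if lc.length + j < lc.length then 0 else lc.length + j - lc.length + 1) = j + 1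
      rw [if_neg (by omega)]
      omega)
    have h2 : R ⟨lc.length + j, hlt⟩ = fun _ => 0 := by
      show (if hi : lc.length + j < lc.length then (e ⟨lc.length + j, hi⟩).1 else fun _ => 0) = _
      rw [dif_neg (by omega)]
    have h3 : (lc ++ ls).get ⟨lc.length + j, hlt⟩ = ls[j] := by
      rw [List.get_eq_getElem, List.getElem_append_right (by simp)]
      simp
    rw [h2, h3] at h1
    exact eq_zero_of_pt h1 hfd

end K4H77CW
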